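import Mathlib
import Pool.Agent.Helper88.MD.Div

set_option autoImplicit false

/-!
The fourth moment of the quadratic exponential sums `∑ b_n e(n ^ 2 x)`.
-/

namespace Pool.Agent.Q4L

open Finset Complex MeasureTheory intervalIntegral

/-- `e(k x)` -/
noncomputable def ek (k : ℤ) (x : ℝ) : ℂ := Complex.exp (2 * Real.pi * I * ((k : ℂ) * x))

theorem ek_cont (k : ℤ) : Continuous (ek k) := by
  unfold ek
  fun_prop

theorem ek_int (k : ℤ) : ∫ x in (-1 : ℝ)..1, ek k x = if k = 0 then 2 else 0 := by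
  by_cases hk : k = 0
  · subst hk
    simp [ek]
    norm_num
  · rw [if_neg hk]
    have hk' : (k : ℂ) ≠ 0 := by exact_mod_cast hk
    have hc : (2 * Real.pi * I * (k : ℂ)) ≠ 0 := by
      simp [hk', Real.pi_ne_zero]
    have h1 : ∀ x : ℝ, ek k x = Complex.exp ((2 * Real.pi * I * (k : ℂ)) * x) := by
      intro x
      unfold ek
      congr 1
      ring
    simp_rw [h1]
    rw [integral_exp_mul_complex hc]
    have h2 : Complex.exp (2 * Real.pi * I * (k : ℂ) * ((1 : ℝ) : ℂ)) = 1 := by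
      rw [Complex.exp_eq_one_iff]
      exact ⟨k, by push_cast; ring⟩
    have h3 : Complex.exp (2 * Real.pi * I * (k : ℂ) * ((-1 : ℝ) : ℂ)) = 1 := by
      rw [Complex.exp_eq_one_iff]
      exact ⟨-k, by push_cast; ring⟩
    rw [h2, h3, sub_self, zero_div]

theorem ek_mul (k l : ℤ) (x : ℝ) : ek k x * (starRingEnd ℂ) (ek l x) = ek (k - l) x := by
  unfold ek
  rw [← Complex.exp_conj, ← Complex.exp_add]
  congr 1
  simp only [map_mul, Complex.conj_I, Complex.conj_ofReal, map_ofNat, map_intCast]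
  push_cast
  ring

/-- Parseval, as an inequality -/
theorem pars {ι : Type} [DecidableEq ι] (P : Finset ι) (g : ι → ℤ) (u : ι → ℂ) :
    ∫ x in (-1 : ℝ)..1, ‖∑ p ∈ P, u p * ek (g p) x‖ ^ 2 ≤
      2 * ∑ h ∈ P.image g, (∑ p ∈ P with g p = h, ‖u p‖) ^ 2 := by
  have h1 : ∀ x : ℝ, ((‖∑ p ∈ P, u p * ek (g p) x‖ ^ 2 : ℝ) : ℂ) =
      ∑ p ∈ P, ∑ q ∈ P, (u p * (starRingEnd ℂ) (u q)) * ek (g p - g q) x := by
    intro x
    rw [← Complex.normSq_eq_norm_sq, ← Complex.mul_conj, map_sum, Finset.sum_mul_sum]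
    refine Finset.sum_congr rfl fun p _ => Finset.sum_congr rfl fun q _ => ?_
    rw [map_mul, ← ek_mul]
    ring
  have h2 : ((∫ x in (-1 : ℝ)..1, ‖∑ p ∈ P, u p * ek (g p) x‖ ^ 2 : ℝ) : ℂ) =
      ∑ p ∈ P, ∑ q ∈ P, (u p * (starRingEnd ℂ) (u q)) * (if g p - g q = 0 then 2 else 0) := by
    rw [← intervalIntegral.integral_ofReal]
    simp_rw [h1]
    rw [intervalIntegral.integral_finset_sum]
    · refine Finset.sum_congr rfl fun p _ => ?_
      rw [intervalIntegral.integral_finset_sum]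
      · refine Finset.sum_congr rfl fun q _ => ?_
        rw [intervalIntegral.integral_const_mul, ek_int]
      · intro q _
        exact (continuous_const.mul (ek_cont _)).intervalIntegrable _ _
    · intro p _
      exact (continuous_finset_sum _ fun q _ =>
        continuous_const.mul (ek_cont _)).intervalIntegrable _ _
  have h3 : ∫ x in (-1 : ℝ)..1, ‖∑ p ∈ P, u p * ek (g p) x‖ ^ 2 ≤
      ∑ p ∈ P, ∑ q ∈ P, ‖u p‖ * ‖u q‖ * (if g p - g q = 0 then 2 else 0) := by
    have h4 : 0 ≤ ∫ x in (-1 : ℝ)..1, ‖∑ p ∈ P, u p * ek (g p) x‖ ^ 2 :=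
      intervalIntegral.integral_nonneg (by norm_num) fun x _ => by positivity
    calc ∫ x in (-1 : ℝ)..1, ‖∑ p ∈ P, u p * ek (g p) x‖ ^ 2
        = ‖((∫ x in (-1 : ℝ)..1, ‖∑ p ∈ P, u p * ek (g p) x‖ ^ 2 : ℝ) : ℂ)‖ := by
          rw [Complex.norm_real, Real.norm_of_nonneg h4]
      _ ≤ _ := by
          rw [h2]
          refine (norm_sum_le _ _).trans (Finset.sum_le_sum fun p _ => ?_)
          refine (norm_sum_le _ _).trans (Finset.sum_le_sum fun q _ => ?_)
          rw [norm_mul, norm_mul, RCLike.norm_conj]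
          split_ifs <;> simp
  refine h3.trans (le_of_eq ?_)
  have h5 : ∀ p ∈ P, ∑ q ∈ P, ‖u p‖ * ‖u q‖ * (if g p - g q = 0 then (2 : ℝ) else 0) =
      2 * (‖u p‖ * ∑ q ∈ P with g q = g p, ‖u q‖) := by
    intro p _
    rw [Finset.sum_filter, Finset.mul_sum, Finset.mul_sum]
    refine Finset.sum_congr rfl fun q _ => ?_
    by_cases h : g q = g p
    · rw [if_pos (by omega), if_pos h]
      ring
    · rw [if_neg (by omega), if_neg h]
      ring
  rw [Finset.sum_congr rfl h5, ← Finset.mul_sum]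
  congr 1
  rw [← Finset.sum_fiberwise_of_maps_to (g := g) (t := P.image g)
    (fun p hp => Finset.mem_image_of_mem g hp)]
  refine Finset.sum_congr rfl fun h _ => ?_
  rw [pow_two, Finset.sum_mul]
  refine Finset.sum_congr rfl fun p hp => ?_
  rw [(Finset.mem_filter.1 hp).2]

end Pool.Agent.Q4L
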