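import Mathlib

/-!
Quadratic exponential sums with a phase: the Taylor step.
-/

set_option autoImplicit false
open Finset

namespace Pool.Agent.Q4L

/-- `e(t) = exp(2 π i t)` -/
noncomputable def e (t : ℝ) : ℂ := Complex.exp (2 * Real.pi * Complex.I * t)

theorem e_add (s t : ℝ) : e (s + t) = e s * e t := by
  unfold e
  rw [← Complex.exp_add]
  congr 1
  push_cast
  ring

theorem norm_e (t : ℝ) : ‖e t‖ = 1 := by
  unfold e
  rw [Complex.norm_exp]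
  have : (2 * Real.pi * Complex.I * t : ℂ).re = 0 := by simp
  rw [this, Real.exp_zero]

theorem cs (N : ℕ) (a : ℤ → ℂ) :
    ∑ n ∈ Icc (-N : ℤ) N, ‖a n‖ ≤ √(2 * N + 1) * √(∑ n ∈ Icc (-N : ℤ) N, ‖a n‖ ^ 2) := by
  have h := Finset.sum_mul_sq_le_sq_mul_sq (Icc (-N : ℤ) N) (fun _ => (1 : ℝ)) (fun n => ‖a n‖)
  rw [← Real.sqrt_mul (by positivity)]
  apply Real.le_sqrt_of_sq_le
  have hc : ∑ _n ∈ Icc (-N : ℤ) N, (1 : ℝ) ^ 2 = 2 * N + 1 := by
    rw [Finset.sum_const, Int.card_Icc, nsmul_eq_mul]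
    have : ((N : ℤ) + 1 - -N).toNat = 2 * N + 1 := by omega
    rw [this]
    push_cast
    ring
  rw [hc] at h
  simpa using h

/-- the Taylor step -/
theorem tay (K : ℕ) : ∃ C : ℝ, 0 ≤ C ∧ ∀ N : ℕ, 1 ≤ N → ∀ (a : ℤ → ℂ) (c y x ρ : ℝ),
    0 ≤ ρ → ρ ≤ 1 → N * |y - c| ≤ ρ →
    ‖∑ n ∈ Icc (-N : ℤ) N, a n * e (n * y + n ^ 2 * x)‖ ≤
      C * ∑ k ∈ range K, ‖∑ n ∈ Icc (-N : ℤ) N,
        a n * ((n : ℂ) / N) ^ k * e (n * c) * e (n ^ 2 * x)‖ +
      C * ρ ^ K * √(2 * N + 1) * √(∑ n ∈ Icc (-N : ℤ) N, ‖a n‖ ^ 2) := by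
  have h2pi : (1 : ℝ) ≤ 2 * Real.pi := by nlinarith [Real.pi_gt_three]
  have h2pi0 : (0 : ℝ) < 2 * Real.pi := by positivity
  refine ⟨(2 * Real.pi) ^ K * Real.exp (2 * Real.pi), by positivity, ?_⟩
  intro N hN a c y x ρ hρ0 hρ1 hρ
  have hN0 : (0 : ℝ) < N := by exact_mod_cast hN
  have hNc : (N : ℂ) ≠ 0 := by exact_mod_cast hN0.ne'
  -- the numbers w_n
  obtain ⟨w, hw⟩ : ∃ w : ℤ → ℂ, w = fun n : ℤ => (2 * Real.pi * Complex.I * ((n * (y - c) : ℝ) : ℂ)) :=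
    ⟨_, rfl⟩
  obtain ⟨u, hu⟩ : ∃ u : ℂ, u = 2 * Real.pi * Complex.I * ((N * (y - c) : ℝ) : ℂ) := ⟨_, rfl⟩
  have hwu : ∀ n : ℤ, w n = u * ((n : ℂ) / N) := by
    intro n
    rw [hw, hu]
    push_cast
    field_simp
  have hunorm : ‖u‖ ≤ 2 * Real.pi * ρ := by
    rw [hu, norm_mul, norm_mul, norm_mul, Complex.norm_I, Complex.norm_real, Complex.norm_real,
      Complex.norm_ofNat, Real.norm_eq_abs, Real.norm_eq_abs, abs_of_pos Real.pi_pos, mul_one,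
      abs_mul, abs_of_pos hN0]
    exact mul_le_mul_of_nonneg_left hρ h2pi0.le
  have hwnorm : ∀ n ∈ Icc (-N : ℤ) N, ‖w n‖ ≤ 2 * Real.pi * ρ := by
    intro n hn
    rw [mem_Icc] at hn
    rw [hwu, norm_mul, norm_div, Complex.norm_natCast, Complex.norm_intCast]
    have h1 : |(n : ℝ)| ≤ N := by
      rw [abs_le]
      exact ⟨by exact_mod_cast hn.1, by exact_mod_cast hn.2⟩
    have h2 : |(n : ℝ)| / N ≤ 1 := (div_le_one hN0).2 h1
    calc ‖u‖ * (|(n : ℝ)| / N) ≤ ‖u‖ * 1 := mul_le_mul_of_nonneg_left h2 (norm_nonneg _)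
      _ ≤ _ := by rw [mul_one]; exact hunorm
  have hsplit : ∀ n : ℤ, a n * e (n * y + n ^ 2 * x) =
      (∑ k ∈ range K, u ^ k / (k.factorial : ℂ) *
        (a n * ((n : ℂ) / N) ^ k * e (n * c) * e (n ^ 2 * x))) +
      a n * e (n * c) * e (n ^ 2 * x) *
        (Complex.exp (w n) - ∑ k ∈ range K, w n ^ k / (k.factorial : ℂ)) := by
    intro n
    have h1 : e (n * y + n ^ 2 * x) = e (n * c) * e (n ^ 2 * x) * Complex.exp (w n) := by
      have h2 : (n * y + n ^ 2 * x : ℝ) = (n * c + n ^ 2 * x) + n * (y - c) := by ring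
      rw [h2, e_add, e_add]
      rw [hw]
      rfl
    rw [h1, mul_sub, mul_sum]
    have h3 : ∀ k ∈ range K, a n * e (n * c) * e (n ^ 2 * x) * (w n ^ k / (k.factorial : ℂ)) =
        u ^ k / (k.factorial : ℂ) * (a n * ((n : ℂ) / N) ^ k * e (n * c) * e (n ^ 2 * x)) := by
      intro k _
      rw [hwu, mul_pow]
      ring
    rw [sum_congr rfl h3]
    ring
  have hsum : ∑ n ∈ Icc (-N : ℤ) N, a n * e (n * y + n ^ 2 * x) =
      (∑ k ∈ range K, u ^ k / (k.factorial : ℂ) * ∑ n ∈ Icc (-N : ℤ) N,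
        a n * ((n : ℂ) / N) ^ k * e (n * c) * e (n ^ 2 * x)) +
      ∑ n ∈ Icc (-N : ℤ) N, a n * e (n * c) * e (n ^ 2 * x) *
        (Complex.exp (w n) - ∑ k ∈ range K, w n ^ k / (k.factorial : ℂ)) := by
    rw [sum_congr rfl fun n _ => hsplit n, sum_add_distrib, sum_comm]
    congr 1
    exact sum_congr rfl fun k _ => by rw [mul_sum]
  rw [hsum]
  have hCge : Real.exp (2 * Real.pi) ≤ (2 * Real.pi) ^ K * Real.exp (2 * Real.pi) :=
    le_mul_of_one_le_left (Real.exp_pos _).le (one_le_pow₀ h2pi)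
  refine (norm_add_le _ _).trans (add_le_add ?_ ?_)
  · refine (norm_sum_le _ _).trans ?_
    rw [mul_sum]
    refine sum_le_sum fun k _ => ?_
    rw [norm_mul]
    refine mul_le_mul_of_nonneg_right ?_ (norm_nonneg _)
    rw [norm_div, norm_pow, Complex.norm_natCast]
    have h1 : ‖u‖ ≤ 2 * Real.pi := hunorm.trans (by nlinarith)
    have h2 : ‖u‖ ^ k / (k.factorial : ℝ) ≤ (2 * Real.pi) ^ k / (k.factorial : ℝ) :=
      div_le_div_of_nonneg_right (pow_le_pow_left₀ (norm_nonneg _) h1 k) (by positivity)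
    have h3 : (2 * Real.pi) ^ k / (k.factorial : ℝ) ≤ Real.exp (2 * Real.pi) :=
      Real.pow_div_factorial_le_exp (2 * Real.pi) h2pi0.le k
    exact (h2.trans h3).trans hCge
  · refine (norm_sum_le _ _).trans ?_
    have h1 : ∀ n ∈ Icc (-N : ℤ) N, ‖a n * e (n * c) * e (n ^ 2 * x) *
        (Complex.exp (w n) - ∑ k ∈ range K, w n ^ k / (k.factorial : ℂ))‖ ≤
        ‖a n‖ * ((2 * Real.pi) ^ K * Real.exp (2 * Real.pi) * ρ ^ K) := by
      intro n hn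
      rw [norm_mul, norm_mul, norm_mul, norm_e, norm_e, mul_one, mul_one]
      refine mul_le_mul_of_nonneg_left ?_ (norm_nonneg _)
      refine (Complex.norm_exp_sub_sum_le_norm_mul_exp (w n) K).trans ?_
      have h2 := hwnorm n hn
      have h3 : ‖w n‖ ≤ 2 * Real.pi := h2.trans (by nlinarith)
      calc ‖w n‖ ^ K * Real.exp ‖w n‖ ≤ (2 * Real.pi * ρ) ^ K * Real.exp (2 * Real.pi) :=
            mul_le_mul (pow_le_pow_left₀ (norm_nonneg _) h2 K) (Real.exp_le_exp.2 h3)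
              (Real.exp_pos _).le (by positivity)
        _ = _ := by rw [mul_pow]; ring
    refine (sum_le_sum h1).trans ?_
    rw [← sum_mul]
    have h4 := cs N a
    calc (∑ n ∈ Icc (-N : ℤ) N, ‖a n‖) * ((2 * Real.pi) ^ K * Real.exp (2 * Real.pi) * ρ ^ K) ≤
        (√(2 * N + 1) * √(∑ n ∈ Icc (-N : ℤ) N, ‖a n‖ ^ 2)) *
          ((2 * Real.pi) ^ K * Real.exp (2 * Real.pi) * ρ ^ K) :=
          mul_le_mul_of_nonneg_right h4 (by positivity)
      _ = _ := by ring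

end Pool.Agent.Q4L
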